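import Pool.Agent.helper64.PC.SpecE

set_option autoImplicit false

namespace Pool.Agent.PC

open Pool.Agent.PB

private theorem FGE_gate (G : Set Gate) {k : ℕ} (H : BF k) (hk : k ≤ 3) (h : InCl G H) :
    InCl (ter G) H := by
  refine ⟨1, [fun x => (⟨k, H⟩ : Gate).2 fun i => (fun (j : Fin k) (y : Fin k → Bool) => y j) i x],
    ?_, by simp, Or.inl ?_⟩
  · exact Prog.step [] ⟨k, H⟩ (fun j y => y j) Prog.nil ⟨hk, h⟩ (fun i => Or.inr ⟨i, rfl⟩)
  · exact List.mem_singleton.2 rfl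

private theorem FGE_incl (hDUA : DUA_stmt) (G : Set Gate) (n : ℕ) (f : BF n) :
    InCl (dualB G) (dual f) ↔ InCl G f := by
  constructor
  · rintro ⟨s, hs⟩
    exact ⟨s, (hDUA.2.2.2.1 G n f s).1 hs⟩
  · rintro ⟨s, hs⟩
    exact ⟨s, (hDUA.2.2.2.1 G n f s).2 hs⟩

private theorem FGE_ter (hDUA : DUA_stmt) (G : Set Gate) : dualB (ter G) = ter (dualB G) := by
  ext ⟨k, g⟩
  show (k ≤ 3 ∧ InCl G (dual g)) ↔ (k ≤ 3 ∧ InCl (dualB G) g)
  have h1 := FGE_incl hDUA G k (dual g)
  rw [hDUA.1 k g] at h1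
  rw [h1]

private theorem FGE_back (hDUA : DUA_stmt) (G : Set Gate) (n : ℕ) (f : BF n)
    (h : InCl (ter (dualB G)) (dual f)) : InCl (ter G) f := by
  rw [← FGE_ter hDUA] at h
  exact (FGE_incl hDUA (ter G) n f).1 h

private theorem FGE_un (hCLP : CLP_stmt) (G : Set Gate) {n : ℕ} (f : BF n) (hf : InCl G f) :
    InCl G (fun y : Fin 1 → Bool => f fun _ => y 0) :=
  hCLP.2 G n 1 f (fun _ y => y 0) hf (fun _ => hCLP.1 G 1 0)

private theorem FGE_star (hRTP : RTP_stmt) (hRT0 : RT0_stmt) (hDNF : DNF_stmt) (hPRP : PRP_stmt)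
    (hCLP : CLP_stmt) (G : Set Gate) (hS : ∀ g ∈ G, Star g.2) (hM : InCl G fM) (n : ℕ)
    (hn : 1 ≤ n) (f : BF n) (hf : InCl G f) : InCl (ter G) f := by
  have hM' : InCl (ter G) fM := FGE_gate G fM le_rfl hM
  obtain ⟨-, -, -, -, -, -, hst, -, -⟩ := hPRP G n f hf
  have hst := hst hS
  obtain ⟨s, hs⟩ := hDNF.1 n f
  by_cases h1 : f (fun _ => true) = true
  · obtain ⟨c, hc⟩ := hRTP (ter G) hM'
    rcases hst with h0 | ⟨i, hi⟩
    · rw [h0] at h1
      exact absurd h1 (by simp)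
    · exact ⟨_, hc n hn (fun x => x i) f s 0 ⟨[], Prog.nil, le_rfl, Or.inr ⟨i, rfl⟩⟩ hi h1 hs⟩
  · have h1' : f (fun _ => true) = false := by simpa using h1
    have h0' : f (fun _ => false) = false := by
      rcases hst with h0 | ⟨i, hi⟩
      · exact h0 _
      · by_contra h2
        have h3 : f (fun _ => false) = true := by simpa using h2
        exact absurd (hi _ h3) (by simp)
    have hC : InCl G (fC false 1) := by
      have h2 := FGE_un hCLP G f hf
      have h3 : (fun y : Fin 1 → Bool => f fun _ => y 0) = fC false 1 := by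
        funext y
        show (f fun _ => y 0) = false
        cases h4 : y 0
        · exact h0'
        · exact h1'
      rwa [h3] at h2
    obtain ⟨c, hc⟩ := hRT0 (ter G) hM' (FGE_gate G _ (by norm_num) hC)
    rcases hst with h0 | ⟨i, hi⟩
    · exact ⟨_, hc n f ⟨0, hn⟩ s (fun x hx => by rw [h0] at hx; exact absurd hx (by simp)) hs⟩
    · exact ⟨_, hc n f i s hi hs⟩

private theorem FGE_t0 (hET0 : ET0_stmt) (hDNF : DNF_stmt) (hPRP : PRP_stmt)
    (G : Set Gate) (h0 : ∀ g ∈ G, g.2 (fun _ => false) = false) (hO : InCl G fOr)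
    (hq : ∃ q : BF 2, InCl G q ∧ q ![false, false] = false ∧ q ![true, false] = true ∧
      q ![true, true] = false) (n : ℕ) (hn : 1 ≤ n) (f : BF n) (hf : InCl G f) :
    InCl (ter G) f := by
  obtain ⟨q, hq1, hq2, hq3, hq4⟩ := hq
  obtain ⟨c, hc⟩ := hET0 (ter G) q (FGE_gate G _ (by norm_num) hO) (FGE_gate G _ (by norm_num) hq1)
    hq2 hq3 hq4
  obtain ⟨s, hs⟩ := hDNF.1 n f
  obtain ⟨-, -, -, -, -, -, -, hz, -⟩ := hPRP G n f hf
  exact ⟨_, hc n hn f (hz h0) s hs⟩

theorem FGE (hCSE : CSE_stmt) (hRTP : RTP_stmt) (hRT0 : RT0_stmt) (hEID : EID_stmt)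
    (hET0 : ET0_stmt) (hEAL : EAL_stmt) (hESD : ESD_stmt) (hDNF : DNF_stmt) (hDUA : DUA_stmt)
    (hPRP : PRP_stmt) (hCLP : CLP_stmt) : FGE_stmt := by
  intro G hT hW n hn f hf
  rcases hCSE G hT hW with ⟨hS, hM⟩ | ⟨hS, hM⟩ | ⟨hS, hD⟩ | ⟨hI, hA, hO, g, hg1, hg2, hg3⟩ |
    ⟨h0, hO, hq⟩ | ⟨h0, hO, hq⟩ | ⟨hN, hC, hA⟩
  · exact FGE_star hRTP hRT0 hDNF hPRP hCLP G hS hM n hn f hf
  · exact FGE_back hDUA G n f (FGE_star hRTP hRT0 hDNF hPRP hCLP (dualB G) hS hM n hn (dual f)
      ((FGE_incl hDUA G n f).2 hf))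
  · obtain ⟨c, hc⟩ := hESD (ter G) (FGE_gate G _ le_rfl hD)
    obtain ⟨-, -, -, -, hsd, -, -, -, -⟩ := hPRP G n f hf
    have hsd := hsd hS
    by_cases h0 : f (fun _ => false) = false
    · obtain ⟨s, hs⟩ := hDNF.1 n f
      exact ⟨_, hc n hn f hsd h0 s hs⟩
    · have h0' : f (fun _ => false) = true := by simpa using h0
      have h1' : f (fun _ => true) = false := by
        have h2 := hsd (fun _ => false)
        rw [h0'] at h2
        exact h2
      have hN : InCl G fNot := by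
        have h2 := FGE_un hCLP G f hf
        have h3 : (fun y : Fin 1 → Bool => f fun _ => y 0) = fNot := by
          funext y
          show (f fun _ => y 0) = !(y 0)
          cases h4 : y 0
          · exact h0'
          · exact h1'
        rwa [h3] at h2
      obtain ⟨s, hs⟩ := hDNF.1 n (fun x => !(f x))
      have h4 : InCl (ter G) (fun x => !(f x)) := by
        refine ⟨_, hc n hn (fun x => !(f x)) ?_ ?_ s hs⟩
        · intro x
          show (!(f fun i => !(x i))) = !(!(f x))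
          rw [hsd x]
        · show (!(f fun _ => false)) = false
          rw [h0']
          rfl
      have h5 := hCLP.2 (ter G) 1 n fNot (fun _ x => !(f x)) (FGE_gate G _ (by norm_num) hN)
        (fun _ => h4)
      have h6 : (fun x : Fin n → Bool => fNot fun i => (fun _ x => !(f x) : Fin 1 → BF n) i x) =
          f := by
        funext x
        show (!(!(f x))) = f x
        rw [Bool.not_not]
      rwa [h6] at h5
  · obtain ⟨-, -, -, -, -, -, -, hz, ho⟩ := hPRP G n f hf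
    obtain ⟨-, -, -, -, -, -, -, gz, go⟩ := hPRP G 3 g hg1
    have e0 : (![false, false, false] : Fin 3 → Bool) = fun _ => false := by
      funext i
      fin_cases i <;> rfl
    have e1 : (![true, true, true] : Fin 3 → Bool) = fun _ => true := by
      funext i
      fin_cases i <;> rfl
    obtain ⟨c, hc⟩ := hEID (ter G) g (FGE_gate G _ (by norm_num) hA) (FGE_gate G _ (by norm_num) hO)
      (FGE_gate G _ le_rfl hg1) (by rw [e0]; exact gz fun g hg => (hI g hg).1)
      (by rw [e1]; exact go fun g hg => (hI g hg).2) hg2 hg3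
    obtain ⟨s, hs⟩ := hDNF.1 n f
    exact ⟨_, hc n hn f (hz fun g hg => (hI g hg).1) (ho fun g hg => (hI g hg).2) s hs⟩
  · exact FGE_t0 hET0 hDNF hPRP G h0 hO hq n hn f hf
  · exact FGE_back hDUA G n f (FGE_t0 hET0 hDNF hPRP (dualB G) h0 hO hq n hn (dual f)
      ((FGE_incl hDUA G n f).2 hf))
  · obtain ⟨c, hc⟩ := hEAL (ter G) (FGE_gate G _ (by norm_num) hN) (FGE_gate G _ (by norm_num) hC)
      (FGE_gate G _ (by norm_num) hA)
    obtain ⟨s, hs⟩ := hDNF.1 n f
    exact ⟨_, hc n hn f s hs⟩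

end Pool.Agent.PC
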